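import Pool.Agent.H40.Zt8

set_option autoImplicit false

namespace Pool.Agent.Results.MP_ae0fd6_lc.Neg

open Pool.Agent.H40.Bspt Pool.Agent.H40.Jz Pool.Agent.H40.Zt

theorem result (M : Type) (E : M → M → Prop) (h : IsZF E) (A : M) (hA : ¬ IsFin E A) :
    ¬ ∃ φ : {P // FinPart E A P} → Ex E A, Intl E (fun P => (φ P).1) ∧ Fto E φ := by
  rintro ⟨φ, a, b⟩
  obtain ⟨f, c, d⟩ := intl_t h a
  obtain ⟨o, ho⟩ := h.emp
  have := @t1 _ E f c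
  have H : Hyp E A (FinPart E A) fun σ => pr E o (f σ) := by
    refine ⟨inferInstance, fun σ i => ⟨o, _, h.nat0 ho, (φ ⟨σ, i⟩).2, congrArg _ (d ⟨σ, i⟩)⟩,
      fun v => ?_⟩
    by_cases e : ∃ σ, FinPart E A σ ∧ pr E o (f σ) = v
    · obtain ⟨σ, e, rfl⟩ := e
      exact (b (φ ⟨σ, e⟩)).imp fun D i => ⟨i.1, fun τ j => i.2 ⟨τ, j.1⟩ (Subtype.ext
        ((d ⟨τ, j.1⟩).symm.trans ((pr_inj h j.2).2.trans (d ⟨σ, e⟩))))⟩
    · exact few_one h fun σ _ i => absurd ⟨σ, i⟩ e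
  exact hA (thmB h (fun Q => f (part E A Q)) (fun Q i => (d ⟨_, (part_sp h i).1⟩).symm ▸
    (φ ⟨_, (part_sp h i).1⟩).2) fun z => few_mono ((H.eq h).fto (pr E o z)) fun Q i =>
      ⟨i.1, congrArg _ i.2⟩)

end Pool.Agent.Results.MP_ae0fd6_lc.Neg
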